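import Pool.Agent.L5helper8.LR.Fib

/-!
# The rank of the classes of `Γ(a / q)`, `gcd (a, q) = 1`
-/

set_option autoImplicit false

open scoped TensorProduct

namespace Pool.Agent.L5helper8.LR

theorem v_neg (q : ℕ) [NeZero q] (g : (ZMod q)ˣ) : v q (-g) = -v q g := by
  unfold v
  have hq : (q : ℚ) ≠ 0 := by exact_mod_cast (NeZero.ne q)
  rw [Units.val_neg, ZMod.neg_val]
  split_ifs with h
  · rw [h, ZMod.val_zero]
    have : La (((0 : ℕ) : ℚ) / q) = 0 := by
      have := La_nat 0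
      simpa using this
    rw [this, neg_zero]
  · have h1 : ((q - (g : ZMod q).val : ℕ) : ℚ) / q = -(((g : ZMod q).val : ℚ) / q) + (1 : ℕ) := by
      rw [Nat.cast_sub (ZMod.val_lt _).le]
      push_cast
      field_simp
      ring
    rw [h1, La_add_nat, La_neg]

/-- `χ` is good if it is odd and its primitive character is different from `1` at all prime divisors of `q` -/
def Good (q : ℕ) (χ : DirichletCharacter ℂ q) : Prop :=
  χ.Odd ∧ ∀ p : ℕ, p.Prime → p ∣ q → χ.primitiveCharacter (p : ZMod χ.conductor) ≠ 1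

/-- the component of a character -/
noncomputable def e (q : ℕ) [NeZero q] (χ : DirichletCharacter ℂ q) : ℂ ⊗[ℚ] (ℝ ⧸ U Pi0) :=
  ∑ g : (ZMod q)ˣ, (χ ((g⁻¹ : (ZMod q)ˣ) : ZMod q)) ⊗ₜ[ℚ] (v q g)

theorem e_even (q : ℕ) [NeZero q] (χ : DirichletCharacter ℂ q) (h : χ.Even) : e q χ = 0 := by
  have h1 : e q χ = -e q χ := by
    unfold e
    rw [← Finset.sum_neg_distrib, ← Equiv.sum_comp (Equiv.neg (ZMod q)ˣ)]
    refine Finset.sum_congr rfl fun g _ => ?_
    rw [Equiv.neg_apply, v_neg, TensorProduct.tmul_neg, inv_neg, Units.val_neg, h.eval_neg]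
  have h2 : (2 : ℂ) • e q χ = 0 := by
    rw [two_smul]
    nth_rewrite 1 [h1]
    exact neg_add_cancel _
  rcases smul_eq_zero.1 h2 with h3 | h3
  · norm_num at h3
  · exact h3

/-- the sum over a coset of the group of the `g` whose residue modulo `m` is a power of `p` -/
theorem coset_sum {p l m : ℕ} (hp : p.Prime) (hm : 0 < m) (hpm : Nat.Coprime p m)
    (hdvd : m ∣ p ^ (l + 1) * m) [NeZero (p ^ (l + 1) * m)] (g₀ : (ZMod (p ^ (l + 1) * m))ˣ) :
    ∑ g ∈ Finset.univ.filter (fun g : (ZMod (p ^ (l + 1) * m))ˣ =>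
      ZMod.unitsMap hdvd (g₀⁻¹ * g) ∈ Subgroup.zpowers (ZMod.unitOfCoprime p hpm)),
      v (p ^ (l + 1) * m) g = 0 := by
  classical
  have : NeZero m := ⟨hm.ne'⟩
  set P := ZMod.unitOfCoprime p hpm with hP
  set c₀ := ZMod.unitsMap hdvd g₀ with hc₀
  have h1 : Finset.univ.filter (fun g : (ZMod (p ^ (l + 1) * m))ˣ =>
      ZMod.unitsMap hdvd (g₀⁻¹ * g) ∈ Subgroup.zpowers P) =
      (Finset.univ.filter (fun c : (ZMod m)ˣ => c₀⁻¹ * c ∈ Subgroup.zpowers P)).biUnion
        (fun c => Finset.univ.filter (fun g => ZMod.unitsMap hdvd g = c)) := by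
    ext g
    simp only [Finset.mem_filter, Finset.mem_univ, true_and, Finset.mem_biUnion, map_mul, map_inv,
      exists_eq_right']
    rfl
  rw [h1, Finset.sum_biUnion]
  · rw [Finset.sum_congr rfl (fun c _ => fibre_sum (l := l) hp hm hpm hdvd c), Finset.sum_sub_distrib,
      sub_eq_zero]
    symm
    refine Finset.sum_nbij' (fun c => P⁻¹ * c) (fun c => P * c) ?_ ?_ ?_ ?_ ?_
    · intro c hc
      simp only [Finset.mem_filter, Finset.mem_univ, true_and] at hc ⊢
      have h2 : c₀⁻¹ * (P⁻¹ * c) = P⁻¹ * (c₀⁻¹ * c) := by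
        rw [mul_left_comm]
      rw [h2]
      exact Subgroup.mul_mem _ (Subgroup.inv_mem _ (Subgroup.mem_zpowers P)) hc
    · intro c hc
      simp only [Finset.mem_filter, Finset.mem_univ, true_and] at hc ⊢
      have h2 : c₀⁻¹ * (P * c) = P * (c₀⁻¹ * c) := by
        rw [mul_left_comm]
      rw [h2]
      exact Subgroup.mul_mem _ (Subgroup.mem_zpowers P) hc
    · intro c _
      simp
    · intro c _
      simp
    · intro c _
      rfl
  · intro c _ c' _ hcc'
    rw [Function.onFun, Finset.disjoint_left]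
    intro g hg hg'
    rw [Finset.mem_filter] at hg hg'
    exact hcc' (hg.2.symm.trans hg'.2)

theorem coset_sum' {p l m q : ℕ} (hq : q = p ^ (l + 1) * m) (hp : p.Prime) (hm : 0 < m)
    (hpm : Nat.Coprime p m) (hdvd : m ∣ q) [NeZero q] (g₀ : (ZMod q)ˣ) :
    ∑ g ∈ Finset.univ.filter (fun g : (ZMod q)ˣ =>
      ZMod.unitsMap hdvd (g₀⁻¹ * g) ∈ Subgroup.zpowers (ZMod.unitOfCoprime p hpm)),
      v q g = 0 := by
  subst hq
  exact coset_sum hp hm hpm hdvd g₀

theorem e_bad_aux {p l m q : ℕ} (hq : q = p ^ (l + 1) * m) (hp : p.Prime) (hm : 0 < m)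
    (hpm : Nat.Coprime p m) (hdvd : m ∣ q) [NeZero q]
    (χ : DirichletCharacter ℂ q)
    (h : ∀ g : (ZMod q)ˣ,
      ZMod.unitsMap hdvd g ∈ Subgroup.zpowers (ZMod.unitOfCoprime p hpm) → χ g = 1) :
    e q χ = 0 := by
  classical
  set H := Finset.univ.filter (fun g : (ZMod q)ˣ =>
      ZMod.unitsMap hdvd g ∈ Subgroup.zpowers (ZMod.unitOfCoprime p hpm)) with hH
  have h1 : ∑ g₀ : (ZMod q)ˣ, ∑ t ∈ H, (χ (((g₀ * t)⁻¹ : (ZMod q)ˣ) : ZMod q)) ⊗ₜ[ℚ] (v q (g₀ * t)) =
      (H.card : ℕ) • e q χ := by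
    rw [Finset.sum_comm]
    have h2 : ∀ t ∈ H, ∑ g₀ : (ZMod q)ˣ,
        (χ (((g₀ * t)⁻¹ : (ZMod q)ˣ) : ZMod q)) ⊗ₜ[ℚ] (v q (g₀ * t)) = e q χ := by
      intro t _
      unfold e
      exact Equiv.sum_comp (Equiv.mulRight t) (fun g : (ZMod q)ˣ =>
        (χ ((g⁻¹ : (ZMod q)ˣ) : ZMod q)) ⊗ₜ[ℚ] (v q g))
    rw [Finset.sum_congr rfl h2, Finset.sum_const]
  have h3 : ∀ g₀ : (ZMod q)ˣ,
      ∑ t ∈ H, (χ (((g₀ * t)⁻¹ : (ZMod q)ˣ) : ZMod q)) ⊗ₜ[ℚ] (v q (g₀ * t)) = 0 := by
    intro g₀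
    have h4 : ∀ t ∈ H, (χ (((g₀ * t)⁻¹ : (ZMod q)ˣ) : ZMod q)) ⊗ₜ[ℚ] (v q (g₀ * t)) =
        (χ ((g₀⁻¹ : (ZMod q)ˣ) : ZMod q)) ⊗ₜ[ℚ] (v q (g₀ * t)) := by
      intro t ht
      rw [hH, Finset.mem_filter] at ht
      have h5 : χ ((t⁻¹ : (ZMod q)ˣ) : ZMod q) = 1 := by
        apply h
        rw [map_inv]
        exact Subgroup.inv_mem _ ht.2
      rw [mul_inv_rev, Units.val_mul, map_mul, h5, one_mul]
    rw [Finset.sum_congr rfl h4, ← TensorProduct.tmul_sum]
    have h6 : ∑ t ∈ H, v q (g₀ * t) = 0 := by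
      rw [← coset_sum' (l := l) hq hp hm hpm hdvd g₀]
      refine Finset.sum_nbij' (fun t => g₀ * t) (fun g => g₀⁻¹ * g) ?_ ?_ ?_ ?_ ?_
      · intro t ht
        rw [hH, Finset.mem_filter] at ht
        rw [Finset.mem_filter]
        refine ⟨Finset.mem_univ _, ?_⟩
        rw [inv_mul_cancel_left]
        exact ht.2
      · intro g hg
        rw [Finset.mem_filter] at hg
        rw [hH, Finset.mem_filter]
        exact ⟨Finset.mem_univ _, hg.2⟩
      · intro t _
        simp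
      · intro g _
        simp
      · intro t _
        rfl
    rw [h6, TensorProduct.tmul_zero]
  rw [Finset.sum_eq_zero (fun g₀ _ => h3 g₀)] at h1
  have h7 : ((H.card : ℕ) : ℂ) • e q χ = 0 := by
    rw [Nat.cast_smul_eq_nsmul]
    exact h1.symm
  rcases smul_eq_zero.1 h7 with h8 | h8
  · exfalso
    have h9 : H.card ≠ 0 := by
      rw [Finset.card_ne_zero]
      refine ⟨1, ?_⟩
      rw [hH, Finset.mem_filter]
      exact ⟨Finset.mem_univ _, by rw [map_one]; exact Subgroup.one_mem _⟩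
    exact h9 (by exact_mod_cast h8)
  · exact h8

theorem e_bad (q : ℕ) [NeZero q] (χ : DirichletCharacter ℂ q) {p : ℕ} (hp : p.Prime) (hpq : p ∣ q)
    (h : χ.primitiveCharacter (p : ZMod χ.conductor) = 1) : e q χ = 0 := by
  have : Fact p.Prime := ⟨hp⟩
  rw [← DirichletCharacter.mem_subgroupOfPrimitiveMapToOne_iff] at h
  unfold DirichletCharacter.subgroupOfPrimitiveMapToOne at h
  rw [Subgroup.mem_map] at h
  obtain ⟨ψ, hψ, rfl⟩ := h
  rw [SetLike.mem_coe.symm] at hψ
  have hψ' : ψ ((ZMod.unitOfCoprime p (Nat.coprime_ordCompl hp (NeZero.ne q)) : (ZMod _)ˣ) : ZMod _) = 1 := by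
    have h1 : ψ ∈ DirichletCharacter.annihilator ℂ (n := q / p ^ q.factorization p)
      {ZMod.unitOfCoprime p (Nat.coprime_ordCompl hp (NeZero.ne q))} := hψ
    rw [DirichletCharacter.mem_annihilator_iff] at h1
    exact h1 _ rfl
  have hm0 : 0 < q / p ^ q.factorization p := Nat.ordCompl_pos p (NeZero.ne q)
  have hpm : Nat.Coprime p (q / p ^ q.factorization p) := Nat.coprime_ordCompl hp (NeZero.ne q)
  have hfac : 0 < q.factorization p := hp.factorization_pos_of_dvd (NeZero.ne q) hpq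
  obtain ⟨l, hl⟩ : ∃ l, q.factorization p = l + 1 := ⟨q.factorization p - 1, by omega⟩
  have hq : q = p ^ (l + 1) * (q / p ^ q.factorization p) := by
    have h0 := Nat.ordProj_mul_ordCompl_eq_self q p
    conv_lhs => rw [← h0]
    rw [hl]
  have hdq : (q / p ^ q.factorization p) ∣ q := Nat.ordCompl_dvd q p
  refine e_bad_aux hq hp hm0 hpm hdq _ fun g hg => ?_
  obtain ⟨i, hi⟩ := Subgroup.mem_zpowers_iff.1 hg
  rw [DirichletCharacter.changeLevel_eq_cast_of_dvd]
  have h2 : (((g : ZMod q)).cast : ZMod (q / p ^ q.factorization p)) =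
      ((ZMod.unitsMap hdq g : (ZMod (q / p ^ q.factorization p))ˣ) :
        ZMod (q / p ^ q.factorization p)) :=
    (ZMod.unitsMap_val hdq g).symm
  rw [h2, ← hi, ← MulChar.coe_toUnitHom, map_zpow]
  have h3 : ψ.toUnitHom (ZMod.unitOfCoprime p hpm) = 1 := by
    rw [← Units.val_inj, MulChar.coe_toUnitHom, Units.val_one]
    exact hψ'
  rw [h3, one_zpow, Units.val_one]

/-- Fourier inversion -/
theorem fourier (q : ℕ) [NeZero q] (g : (ZMod q)ˣ) :
    ((q.totient : ℕ) : ℂ) • ((1 : ℂ) ⊗ₜ[ℚ] (v q g)) = ∑ χ : DirichletCharacter ℂ q, χ g • e q χ := by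
  unfold e
  simp_rw [Finset.smul_sum, TensorProduct.smul_tmul']
  rw [Finset.sum_comm]
  simp_rw [← TensorProduct.sum_tmul]
  rw [Finset.sum_eq_single g]
  · congr 1
    have h1 := DirichletCharacter.sum_char_inv_mul_char_eq ℂ (n := q) g.isUnit (g : ZMod q)
    rw [if_pos rfl] at h1
    rw [smul_eq_mul, mul_one, ← h1]
    refine Finset.sum_congr rfl fun χ _ => ?_
    rw [smul_eq_mul, mul_comm, ZMod.inv_coe_unit]
  · intro h _ hne
    have h1 := DirichletCharacter.sum_char_inv_mul_char_eq ℂ (n := q) h.isUnit (g : ZMod q)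
    rw [if_neg (fun h2 => hne (Units.ext h2))] at h1
    have h2 : ∑ χ : DirichletCharacter ℂ q, χ (g : ZMod q) • χ ((h⁻¹ : (ZMod q)ˣ) : ZMod q) = 0 := by
      rw [← h1]
      refine Finset.sum_congr rfl fun χ _ => ?_
      rw [smul_eq_mul, mul_comm, ZMod.inv_coe_unit]
    rw [h2, TensorProduct.zero_tmul]
  · intro h
    exact absurd (Finset.mem_univ _) h

open Classical in
/-- the number of the good characters -/
noncomputable def rk (q : ℕ) : ℕ := {χ : DirichletCharacter ℂ q | Good q χ}.ncard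

/-- a small set of generators -/
theorem exists_gens (q : ℕ) [NeZero q] : ∃ B : Finset (ZMod q)ˣ, B.card ≤ rk q ∧
    ∀ g : (ZMod q)ˣ, v q g ∈ Submodule.span ℚ (v q '' B) := by
  classical
  obtain ⟨κ, a, ha, hspan, hind⟩ := exists_linearIndependent' ℚ (v q)
  have : Finite κ := Finite.of_injective a ha
  have := Fintype.ofFinite κ
  refine ⟨Finset.univ.image a, ?_, ?_⟩
  · rw [Finset.card_image_of_injective _ ha, Finset.card_univ]
    -- base change
    have h1 : LinearIndependent ℂ (fun i : κ => (1 : ℂ) ⊗ₜ[ℚ] (v q (a i))) := by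
      exact Module.Flat.linearIndependent_one_tmul hind
    let S : Set (ℂ ⊗[ℚ] (ℝ ⧸ U Pi0)) := (e q) '' {χ | Good q χ}
    have hSfin : S.Finite := (Set.toFinite _).image _
    have h2 : ∀ i : κ, (1 : ℂ) ⊗ₜ[ℚ] (v q (a i)) ∈ Submodule.span ℂ S := by
      intro i
      have hne : ((q.totient : ℕ) : ℂ) ≠ 0 := by
        exact_mod_cast (Nat.totient_pos.2 (Nat.pos_of_ne_zero (NeZero.ne q))).ne'
      have h3 := fourier q (a i)
      have h4 : ((q.totient : ℕ) : ℂ) • ((1 : ℂ) ⊗ₜ[ℚ] (v q (a i))) ∈ Submodule.span ℂ S := by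
        rw [h3]
        refine Submodule.sum_mem _ fun χ _ => ?_
        by_cases hχ : Good q χ
        · exact Submodule.smul_mem _ _ (Submodule.subset_span ⟨χ, hχ, rfl⟩)
        · have h5 : e q χ = 0 := by
            rcases χ.even_or_odd with h6 | h6
            · exact e_even q χ h6
            · unfold Good at hχ
              push Not at hχ
              obtain ⟨p, hp, hpq, h7⟩ := hχ h6
              exact e_bad q χ hp hpq h7
          rw [h5, smul_zero]
          exact Submodule.zero_mem _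
      have h5 := Submodule.smul_mem _ (((q.totient : ℕ) : ℂ)⁻¹) h4
      rwa [smul_smul, inv_mul_cancel₀ hne, one_smul] at h5
    have h3 : Fintype.card κ ≤ S.ncard := by
      have h6 : LinearIndependent ℂ (fun i : κ => (⟨(1 : ℂ) ⊗ₜ[ℚ] (v q (a i)), h2 i⟩ :
          Submodule.span ℂ S)) := by
        apply LinearIndependent.of_comp (Submodule.span ℂ S).subtype
        exact h1
      have : Fintype S := hSfin.fintype
      have : FiniteDimensional ℂ (Submodule.span ℂ S) := FiniteDimensional.span_of_finite ℂ hSfin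
      have h7 := h6.fintype_card_le_finrank
      refine h7.trans ((finrank_span_le_card S).trans ?_)
      rw [Set.ncard_eq_toFinset_card' S]
    exact h3.trans (Set.ncard_image_le (Set.toFinite _))
  · intro g
    have h1 : v q g ∈ Submodule.span ℚ (Set.range (v q ∘ a)) := by
      rw [hspan]
      exact Submodule.subset_span ⟨g, rfl⟩
    refine Submodule.span_mono ?_ h1
    rintro _ ⟨i, rfl⟩
    exact ⟨a i, by simp, rfl⟩

end Pool.Agent.L5helper8.LR
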