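import Pool.Agent.L5helper8.LR.Trd

/-!
# Which `q` have fewer than `φ(q) / 2` good characters
-/

set_option autoImplicit false

namespace Pool.Agent.L5helper8.LR

/-- `-1` is no power of `p` modulo the part of `q` which is prime to `p` -/
def Defect (q p : ℕ) : Prop :=
  p.Prime ∧ p ∣ q ∧ ∀ n : ℕ, ¬ (p : ZMod (ordCompl[p] q)) ^ n = -1

theorem neg_one_ne {q : ℕ} (hq : 2 < q) : (-1 : ZMod q) ≠ 1 := by
  have : Fact (2 < q) := ⟨hq⟩
  exact ZMod.neg_one_ne_one

theorem card_odd (q : ℕ) (hq : 2 < q) :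
    2 * {χ : DirichletCharacter ℂ q | χ.Odd}.ncard = q.totient := by
  classical
  have : NeZero q := ⟨by omega⟩
  have h1 := DirichletCharacter.sum_characters_eq_zero ℂ (n := q) (neg_one_ne hq)
  have h2 : ∀ χ : DirichletCharacter ℂ q, χ (-1) = 1 - 2 * (if χ.Odd then (1 : ℂ) else 0) := by
    intro χ
    rcases χ.even_or_odd with h | h
    · rw [if_neg (h.not_odd), h]
      ring
    · rw [if_pos h, h]
      ring
  rw [Finset.sum_congr rfl fun χ _ => h2 χ, Finset.sum_sub_distrib, ← Finset.mul_sum,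
    Finset.sum_boole, Finset.sum_const, Finset.card_univ, nsmul_eq_mul, mul_one] at h1
  have h3 : (Fintype.card (DirichletCharacter ℂ q) : ℂ) = (q.totient : ℂ) := by
    rw [← Nat.card_eq_fintype_card]
    exact_mod_cast DirichletCharacter.card_eq_totient_of_hasEnoughRootsOfUnity ℂ q
  rw [h3] at h1
  have h4 : {χ : DirichletCharacter ℂ q | χ.Odd}.ncard =
      (Finset.univ.filter (fun χ : DirichletCharacter ℂ q => χ.Odd)).card := by
    rw [Set.ncard_eq_toFinset_card']
    congr 1
    ext χ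
    simp
  rw [h4]
  have h5 : (q.totient : ℂ) = 2 * ((Finset.univ.filter (fun χ : DirichletCharacter ℂ q => χ.Odd)).card : ℂ) := by
    linear_combination h1
  exact_mod_cast h5.symm

theorem rk_le (q : ℕ) (hq : 2 < q) : rk q ≤ q.totient / 2 := by
  have : NeZero q := ⟨by omega⟩
  have h1 := card_odd q hq
  have h2 : rk q ≤ {χ : DirichletCharacter ℂ q | χ.Odd}.ncard :=
    Set.ncard_le_ncard (fun χ hχ => hχ.1) (Set.toFinite _)
  omega

/-- the bad odd characters -/
theorem bad_char_iff (q : ℕ) (hq : 2 < q) {p : ℕ} (hp : p.Prime) :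
    (∃ χ : DirichletCharacter ℂ q, χ.Odd ∧ χ.primitiveCharacter (p : ZMod χ.conductor) = 1) ↔
      ∀ n : ℕ, ¬ (p : ZMod (ordCompl[p] q)) ^ n = -1 := by
  classical
  have : NeZero q := ⟨by omega⟩
  have : Fact p.Prime := ⟨hp⟩
  have hcop := Nat.coprime_ordCompl hp (NeZero.ne q)
  have : NeZero (ordCompl[p] q) := ⟨(Nat.ordCompl_pos p (NeZero.ne q)).ne'⟩
  constructor
  · rintro ⟨χ, hodd, h⟩ n hn
    rw [← DirichletCharacter.mem_subgroupOfPrimitiveMapToOne_iff] at h
    unfold DirichletCharacter.subgroupOfPrimitiveMapToOne at h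
    rw [Subgroup.mem_map] at h
    obtain ⟨ψ, hψ, rfl⟩ := h
    rw [DirichletCharacter.mem_annihilator_iff] at hψ
    have h1 := hψ _ rfl
    rw [ZMod.coe_unitOfCoprime] at h1
    have h2 : ψ (-1) = 1 := by
      rw [← hn, map_pow, h1, one_pow]
    have h3 : DirichletCharacter.changeLevel (Nat.ordCompl_dvd q p) ψ (-1) = ψ (-1) := by
      have h4 := DirichletCharacter.changeLevel_eq_cast_of_dvd ψ (Nat.ordCompl_dvd q p) (-1 : (ZMod q)ˣ)
      rw [Units.val_neg, Units.val_one] at h4
      rw [h4]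
      congr 1
      rw [ZMod.cast_neg (Nat.ordCompl_dvd q p), ZMod.cast_one (Nat.ordCompl_dvd q p)]
    have h5 : DirichletCharacter.changeLevel (Nat.ordCompl_dvd q p) ψ (-1) = -1 := hodd
    rw [h3, h2] at h5
    norm_num at h5
  · intro h
    set P := ZMod.unitOfCoprime p hcop with hP
    have h1 : (-1 : (ZMod (ordCompl[p] q))ˣ) ∉ Subgroup.zpowers P := by
      intro hmem
      rw [mem_zpowers_iff_mem_range_orderOf, Finset.mem_image] at hmem
      obtain ⟨n, -, hn⟩ := hmem
      apply h n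
      have := congrArg (fun u : (ZMod (ordCompl[p] q))ˣ => (u : ZMod (ordCompl[p] q))) hn
      simpa [hP] using this
    have h2 : (QuotientGroup.mk (-1 : (ZMod (ordCompl[p] q))ˣ) :
        (ZMod (ordCompl[p] q))ˣ ⧸ Subgroup.zpowers P) ≠ 1 := by
      rw [Ne, QuotientGroup.eq_one_iff]
      exact h1
    have hexp : NeZero (Monoid.exponent ((ZMod (ordCompl[p] q))ˣ ⧸ Subgroup.zpowers P)) :=
      ⟨Monoid.exponent_ne_zero_of_finite (G := (ZMod (ordCompl[p] q))ˣ ⧸ Subgroup.zpowers P)⟩
    obtain ⟨φ, hφ⟩ := CommGroup.exists_apply_ne_one_of_hasEnoughRootsOfUnity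
      ((ZMod (ordCompl[p] q))ˣ ⧸ Subgroup.zpowers P) ℂ h2
    let ψ : DirichletCharacter ℂ (ordCompl[p] q) :=
      MulChar.ofUnitHom (φ.comp (QuotientGroup.mk' (Subgroup.zpowers P)))
    have hψ : ∀ u : (ZMod (ordCompl[p] q))ˣ, ψ u = φ (QuotientGroup.mk u) := fun u => by
      simp only [ψ, MulChar.ofUnitHom_coe]
      rfl
    have hψP : ψ (P : ZMod (ordCompl[p] q)) = 1 := by
      rw [hψ]
      have : (QuotientGroup.mk P : (ZMod (ordCompl[p] q))ˣ ⧸ Subgroup.zpowers P) = 1 := by
        rw [QuotientGroup.eq_one_iff]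
        exact Subgroup.mem_zpowers P
      rw [this, map_one, Units.val_one]
    have hψodd : ψ.Odd := by
      rcases ψ.even_or_odd with h3 | h3
      · exfalso
        apply hφ
        have h4 : ψ ((-1 : (ZMod (ordCompl[p] q))ˣ) : ZMod (ordCompl[p] q)) = 1 := by
          rw [Units.val_neg, Units.val_one]
          exact h3
        rw [hψ] at h4
        exact Units.ext h4
      · exact h3
    refine ⟨DirichletCharacter.changeLevel (Nat.ordCompl_dvd q p) ψ, ?_, ?_⟩
    · have h4 := DirichletCharacter.changeLevel_eq_cast_of_dvd ψ (Nat.ordCompl_dvd q p) (-1 : (ZMod q)ˣ)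
      rw [Units.val_neg, Units.val_one] at h4
      unfold DirichletCharacter.Odd
      rw [h4, ZMod.cast_neg (Nat.ordCompl_dvd q p), ZMod.cast_one (Nat.ordCompl_dvd q p)]
      exact hψodd
    · rw [← DirichletCharacter.mem_subgroupOfPrimitiveMapToOne_iff]
      unfold DirichletCharacter.subgroupOfPrimitiveMapToOne
      rw [Subgroup.mem_map]
      refine ⟨ψ, ?_, rfl⟩
      rw [DirichletCharacter.mem_annihilator_iff]
      intro a ha
      rw [Set.mem_singleton_iff] at ha
      rw [ha]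
      exact hψP

theorem rk_lt_iff (q : ℕ) (hq : 2 < q) : rk q < q.totient / 2 ↔ ∃ p, Defect q p := by
  have : NeZero q := ⟨by omega⟩
  have h1 := card_odd q hq
  have h2 : q.totient / 2 = {χ : DirichletCharacter ℂ q | χ.Odd}.ncard := by omega
  rw [h2]
  constructor
  · intro h
    by_contra hcon
    have h3 : {χ : DirichletCharacter ℂ q | χ.Odd} ⊆ {χ | Good q χ} := by
      intro χ hχ
      refine ⟨hχ, fun p hp hpq h4 => hcon ⟨p, hp, hpq, ?_⟩⟩
      exact (bad_char_iff q hq hp).1 ⟨χ, hχ, h4⟩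
    have := Set.ncard_le_ncard h3 (Set.toFinite _)
    unfold rk at h
    omega
  · rintro ⟨p, hp, hpq, h3⟩
    obtain ⟨χ, hodd, h4⟩ := (bad_char_iff q hq hp).2 h3
    refine Set.ncard_lt_ncard ?_ (Set.toFinite _)
    refine ⟨fun χ hχ => hχ.1, fun hsub => ?_⟩
    exact (hsub hodd).2 p hp hpq h4

theorem defect_trdeg (q : ℕ) (hq : 2 < q) (h : ∃ p, Defect q p) :
    Algebra.trdeg ℚ (IntermediateField.adjoin ℚ (gens q)) ≤ ((q.totient / 2 : ℕ) : Cardinal) := by
  have h1 := (rk_lt_iff q hq).2 h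
  refine (trdeg_le q hq).trans ?_
  exact_mod_cast (by omega : 1 + rk q ≤ q.totient / 2)

theorem defect_14 : Defect 14 2 := by
  refine ⟨by norm_num, by norm_num, ?_⟩
  have h1 : ordCompl[2] 14 = 7 := by
    have : Nat.factorization 14 2 = 1 := by
      rw [show 14 = 2 ^ 1 * 7 by norm_num, Nat.factorization_mul (by norm_num) (by norm_num),
        Nat.Prime.factorization_pow (by norm_num)]
      simp only [Finsupp.add_apply, Finsupp.single_eq_same]
      rw [Nat.factorization_eq_zero_of_not_dvd (by norm_num)]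
    rw [this]
    norm_num
  rw [h1]
  intro n
  have h2 : ∀ n : ℕ, (2 : ZMod 7) ^ n = 1 ∨ (2 : ZMod 7) ^ n = 2 ∨ (2 : ZMod 7) ^ n = 4 := by
    intro n
    induction n with
    | zero => left; rfl
    | succ k ih =>
      rcases ih with h | h | h
      · right; left; rw [pow_succ, h]; rfl
      · right; right; rw [pow_succ, h]; rfl
      · left; rw [pow_succ, h]; rfl
  have h3 := h2 n
  push_cast
  rcases h3 with h | h | h <;> rw [h] <;> decide

end Pool.Agent.L5helper8.LR
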