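import Pool.Agent.L5helper8.LR.Crit
import Pool.Agent.T501Q.J3
import Pool.Agent.H98R3.OM.A1

/-!
# Almost all `q` have a defect, and the defect is unbounded
-/

set_option autoImplicit false

open Filter Topology

namespace Pool.Agent.L5helper8.LR

theorem defect_of {q l p : ℕ} (hl : l.Prime) (hl2 : l ≠ 2) (hlq : l ∣ q) (hp : p.Prime)
    (hpq : p ∣ q) (hpl : (p : ZMod l) = 1) : Defect q p := by
  refine ⟨hp, hpq, fun n hn => ?_⟩
  have hne : l ≠ p := by
    rintro rfl
    rw [ZMod.natCast_self] at hpl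
    have : Fact l.Prime := ⟨hl⟩
    exact zero_ne_one hpl
  have h1 : l ∣ ordCompl[p] q := by
    apply Nat.dvd_ordCompl_of_dvd_not_dvd hlq
    intro h
    exact hne (((Nat.prime_dvd_prime_iff_eq hp hl).1 h).symm)
  have h2 := congrArg (ZMod.castHom h1 (ZMod l)) hn
  rw [map_pow, map_neg, map_one, map_natCast, hpl, one_pow] at h2
  have h3 : Fact (2 < l) := ⟨by have := hl.two_le; omega⟩
  exact ZMod.neg_one_ne_one h2.symm

open Classical in
theorem first_bound (L : Finset ℕ) (hL : ∀ l ∈ L, l.Prime) {N : ℕ} (hN : 0 < N) :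
    (((Finset.range N).filter (fun n => ∀ l ∈ L, ¬ l ∣ n)).card : ℝ) / N ≤
      Real.exp (- ∑ l ∈ L, (1 : ℝ) / l) + ((∏ l ∈ L, l).totient : ℝ) / N := by
  set Q := ∏ l ∈ L, l with hQ
  have hQpos : 0 < Q := Finset.prod_pos (fun p hp => (hL p hp).pos)
  have hQR : (0 : ℝ) < Q := by exact_mod_cast hQpos
  have hNR : (0 : ℝ) < N := by exact_mod_cast hN
  have hcount : ((Finset.range N).filter (fun n => ∀ l ∈ L, ¬ l ∣ n)).card
      ≤ Q.totient * (N / Q + 1) := by
    refine le_trans (Finset.card_le_card ?_) (Nat.Ico_filter_coprime_le 0 N hQpos.ne')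
    intro n hn
    rw [Finset.mem_filter] at hn ⊢
    refine ⟨by simpa using hn.1, ?_⟩
    rw [hQ]
    apply Nat.Coprime.prod_left
    intro p hp
    rw [(hL p hp).coprime_iff_not_dvd]
    exact hn.2 p hp
  have h3 : (((Finset.range N).filter (fun n => ∀ l ∈ L, ¬ l ∣ n)).card : ℝ)
      ≤ (Q.totient : ℝ) * (((N / Q : ℕ) : ℝ) + 1) := by exact_mod_cast hcount
  have h4 : ((N / Q : ℕ) : ℝ) ≤ (N : ℝ) / Q := Nat.cast_div_le
  have hb := Pool.Agent.T501Q.J3.J_helper492.totient_bound L hL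
  have h5 : (((Finset.range N).filter (fun n => ∀ l ∈ L, ¬ l ∣ n)).card : ℝ)
      ≤ (Q.totient : ℝ) * ((N : ℝ) / Q + 1) := by
    refine h3.trans ?_
    gcongr
  have hdiv : (((Finset.range N).filter (fun n => ∀ l ∈ L, ¬ l ∣ n)).card : ℝ) / N
      ≤ (Q.totient : ℝ) / Q + (Q.totient : ℝ) / N := by
    rw [div_le_iff₀ hNR]
    refine h5.trans (le_of_eq ?_)
    field_simp
  linarith

open Classical in
theorem no_defect_density :
    Tendsto (fun N : ℕ => (((Finset.range N).filter (fun q => ¬ (2 < q ∧ ∃ p, Defect q p))).card : ℝ) / N)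
      atTop (𝓝 0) := by
  rw [Metric.tendsto_atTop]
  intro ε hε
  -- choose the finite set of primes
  have h3u : IsUnit (1 : ZMod 3) := isUnit_one
  have hns := Pool.Agent.H98R3.OM.not_summable_class (q := 3) h3u
  have hnn : ∀ n : ℕ, 0 ≤ (if n.Prime ∧ (n : ZMod 3) = 1 then (1 : ℝ) / n else 0) := by
    intro n; split_ifs <;> positivity
  rw [not_summable_iff_tendsto_nat_atTop_of_nonneg hnn] at hns
  have h2 : Tendsto (fun n => Real.exp (- ∑ i ∈ Finset.range n,
      (if i.Prime ∧ (i : ZMod 3) = 1 then (1 : ℝ) / i else 0))) atTop (𝓝 0) :=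
    Real.tendsto_exp_neg_atTop_nhds_zero.comp hns
  obtain ⟨m, hm⟩ := ((tendsto_order.1 h2).2 (ε / 4) (by positivity)).exists
  set L := (Finset.range m).filter (fun n : ℕ => n.Prime ∧ (n : ZMod 3) = 1) with hLdef
  have hL : ∀ l ∈ L, l.Prime := fun l hl => (Finset.mem_filter.1 hl).2.1
  have hL2 : ∀ l ∈ L, l ≠ 2 := by
    rintro l hl rfl
    have := (Finset.mem_filter.1 hl).2.2
    revert this
    decide
  have hsum : ∑ p ∈ L, (1 : ℝ) / p = ∑ i ∈ Finset.range m,
      (if i.Prime ∧ (i : ZMod 3) = 1 then (1 : ℝ) / i else 0) := by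
    rw [hLdef, Finset.sum_filter]
  rw [← hsum] at hm
  -- the sets without prime divisors in a class
  have hcl : ∀ l ∈ L, Tendsto (fun N : ℕ => (((Finset.range N).filter
      (fun n => ∀ p ∈ {p : ℕ | p.Prime ∧ (p : ZMod l) = 1}, ¬ p ∣ n)).card : ℝ) / N) atTop (𝓝 0) := by
    intro l hl
    have : NeZero l := ⟨(hL l hl).ne_zero⟩
    refine Pool.Agent.T501Q.J3.density_zero _ (fun p hp => hp.1) ?_
    have h := Pool.Agent.H98R3.OM.not_summable_class (q := l) (a := 1) isUnit_one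
    refine fun hs => h (hs.congr fun n => ?_)
    by_cases hn : n.Prime ∧ (n : ZMod l) = 1
    · rw [if_pos hn, if_pos (show n ∈ {p : ℕ | p.Prime ∧ (p : ZMod l) = 1} from hn)]
    · rw [if_neg hn, if_neg (show ¬ n ∈ {p : ℕ | p.Prime ∧ (p : ZMod l) = 1} from hn)]
  have hclsum : Tendsto (fun N : ℕ => ∑ l ∈ L, (((Finset.range N).filter
      (fun n => ∀ p ∈ {p : ℕ | p.Prime ∧ (p : ZMod l) = 1}, ¬ p ∣ n)).card : ℝ) / N) atTop (𝓝 0) := by
    have := tendsto_finsetSum L hcl
    simpa using this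
  have hphi : Tendsto (fun N : ℕ => ((∏ l ∈ L, l).totient : ℝ) / N) atTop (𝓝 0) :=
    tendsto_const_div_atTop_nhds_zero_nat _
  have hone : Tendsto (fun N : ℕ => (1 : ℝ) / N) atTop (𝓝 0) :=
    tendsto_const_div_atTop_nhds_zero_nat _
  have hev := ((tendsto_order.1 hclsum).2 (ε / 4) (by positivity)).and
    (((tendsto_order.1 hphi).2 (ε / 4) (by positivity)).and
    (((tendsto_order.1 hone).2 (ε / 4) (by positivity)).and (eventually_gt_atTop 0)))
  obtain ⟨N₀, hN₀⟩ := eventually_atTop.1 hev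
  refine ⟨N₀, fun N hN => ?_⟩
  obtain ⟨h5, h6, h7, h8⟩ := hN₀ N hN
  have hNR : (0 : ℝ) < N := by exact_mod_cast h8
  rw [Real.dist_eq, sub_zero, abs_of_nonneg (by positivity)]
  have hsub : ((Finset.range N).filter (fun q => ¬ (2 < q ∧ ∃ p, Defect q p))) ⊆
      {0} ∪ ((Finset.range N).filter (fun n => ∀ l ∈ L, ¬ l ∣ n) ∪ L.biUnion (fun l =>
        (Finset.range N).filter
          (fun n => ∀ p ∈ {p : ℕ | p.Prime ∧ (p : ZMod l) = 1}, ¬ p ∣ n))) := by
    intro q hq
    rw [Finset.mem_filter] at hq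
    by_cases hq0 : q = 0
    · simp [hq0]
    · rw [Finset.mem_union]
      right
      rw [Finset.mem_union]
      by_cases h9 : ∀ l ∈ L, ¬ l ∣ q
      · left
        exact Finset.mem_filter.2 ⟨hq.1, h9⟩
      · right
        push Not at h9
        obtain ⟨l, hl, hlq⟩ := h9
        rw [Finset.mem_biUnion]
        refine ⟨l, hl, Finset.mem_filter.2 ⟨hq.1, fun p hp hpq => ?_⟩⟩
        apply hq.2
        have hl3 : 2 < l := by
          have := (hL l hl).two_le
          have := hL2 l hl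
          omega
        refine ⟨lt_of_lt_of_le hl3 (Nat.le_of_dvd (Nat.pos_of_ne_zero hq0) hlq), p, ?_⟩
        exact defect_of (hL l hl) (hL2 l hl) hlq hp.1 hpq hp.2
  have hc1 := (Finset.card_le_card hsub).trans ((Finset.card_union_le _ _).trans
    (Nat.add_le_add_left ((Finset.card_union_le _ _).trans
      (Nat.add_le_add_left Finset.card_biUnion_le _)) _))
  rw [Finset.card_singleton] at hc1
  have hc2 : (((Finset.range N).filter (fun q => ¬ (2 < q ∧ ∃ p, Defect q p))).card : ℝ) ≤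
      1 + ((((Finset.range N).filter (fun n => ∀ l ∈ L, ¬ l ∣ n)).card : ℝ) +
        ∑ l ∈ L, (((Finset.range N).filter
          (fun n => ∀ p ∈ {p : ℕ | p.Prime ∧ (p : ZMod l) = 1}, ¬ p ∣ n)).card : ℝ)) := by
    exact_mod_cast hc1
  have hc3 := div_le_div_of_nonneg_right hc2 hNR.le
  rw [add_div, add_div, Finset.sum_div] at hc3
  have hfb := first_bound L hL h8
  linarith

theorem rk_bound {f p : ℕ} (hf : 2 < f) (hp : p.Prime) (hpf : (p : ZMod f) = 1) :
    rk (f * p) + f.totient / 2 ≤ (f * p).totient / 2 := by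
  classical
  have hq : 2 < f * p := lt_of_lt_of_le hf (Nat.le_mul_of_pos_right f hp.pos)
  have : NeZero f := ⟨by omega⟩
  have : NeZero (f * p) := ⟨by omega⟩
  have hdvd : f ∣ f * p := dvd_mul_right f p
  have hcop : Nat.Coprime p f := by
    rw [← ZMod.isUnit_iff_coprime, hpf]
    exact isUnit_one
  have h1 := card_odd f hf
  have h2 := card_odd (f * p) hq
  set D : Set (DirichletCharacter ℂ (f * p)) :=
    (DirichletCharacter.changeLevel hdvd) '' {ψ : DirichletCharacter ℂ f | ψ.Odd} with hD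
  have hDcard : D.ncard = {ψ : DirichletCharacter ℂ f | ψ.Odd}.ncard :=
    Set.ncard_image_of_injective _ (DirichletCharacter.changeLevel_injective hdvd)
  have hdis : Disjoint {χ : DirichletCharacter ℂ (f * p) | Good (f * p) χ} D := by
    rw [Set.disjoint_left]
    rintro χ hχ ⟨ψ, hψ, rfl⟩
    apply hχ.2 p hp (dvd_mul_left p f)
    have h3 : ψ.primitiveCharacter ((p : ℤ) : ZMod ψ.conductor) = ψ ((p : ℤ) : ZMod f) :=
      ψ.primitiveCharacter_apply_of_isCoprime (Nat.isCoprime_iff_coprime.mpr hcop)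
    have h4 := ψ.primitiveCharacter_changeLevel_apply hdvd (p : ℤ)
    rw [Int.cast_natCast, Int.cast_natCast] at h3
    rw [Int.cast_natCast, Int.cast_natCast] at h4
    rw [h4, h3, hpf, map_one]
  have hsub : {χ : DirichletCharacter ℂ (f * p) | Good (f * p) χ} ∪ D ⊆
      {χ : DirichletCharacter ℂ (f * p) | χ.Odd} := by
    rintro χ (hχ | ⟨ψ, hψ, rfl⟩)
    · exact hχ.1
    · have h4 := DirichletCharacter.changeLevel_eq_cast_of_dvd ψ hdvd (-1 : (ZMod (f * p))ˣ)
      rw [Units.val_neg, Units.val_one] at h4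
      rw [Set.mem_ofPred_eq]
      unfold DirichletCharacter.Odd
      rw [h4, ZMod.cast_neg hdvd, ZMod.cast_one hdvd]
      exact hψ
  have h5 := Set.ncard_le_ncard hsub (Set.toFinite _)
  rw [Set.ncard_union_eq hdis (Set.toFinite _) (Set.toFinite _), hDcard] at h5
  unfold rk
  omega

theorem unbounded (N : ℕ) : ∃ q : ℕ, 2 < q ∧
    Algebra.trdeg ℚ (IntermediateField.adjoin ℚ (gens q)) + (N : Cardinal) ≤
      ((1 + q.totient / 2 : ℕ) : Cardinal) := by
  obtain ⟨f, hf, hfp⟩ := Nat.exists_infinite_primes (2 * N + 3)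
  have hf2 : 2 < f := by omega
  obtain ⟨p, hp, -, hpf⟩ := Nat.exists_prime_gt_modEq_one (k := f) f (by omega)
  have hpf' : (p : ZMod f) = 1 := by
    have := (ZMod.natCast_eq_natCast_iff p 1 f).2 hpf
    simpa using this
  have h1 := rk_bound hf2 hp hpf'
  have hq : 2 < f * p := lt_of_lt_of_le hf2 (Nat.le_mul_of_pos_right f hp.pos)
  refine ⟨f * p, hq, ?_⟩
  have h2 : N ≤ f.totient / 2 := by
    rw [Nat.totient_prime hfp]
    omega
  calc Algebra.trdeg ℚ (IntermediateField.adjoin ℚ (gens (f * p))) + (N : Cardinal)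
      ≤ ((1 + rk (f * p) : ℕ) : Cardinal) + (N : Cardinal) := by
        gcongr
        exact trdeg_le (f * p) hq
    _ ≤ ((1 + (f * p).totient / 2 : ℕ) : Cardinal) := by
        exact_mod_cast (by omega : 1 + rk (f * p) + N ≤ 1 + (f * p).totient / 2)

end Pool.Agent.L5helper8.LR
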