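import Pool.Agent.L5helper8.LR.Rel

/-!
# Sums over the fibres of `(ℤ/q)ˣ → (ℤ/m)ˣ`, `q = p ^ (l + 1) m`
-/

set_option autoImplicit false

namespace Pool.Agent.L5helper8.LR

/-- the class of `Γ(g / q)` -/
noncomputable def v (q : ℕ) (g : (ZMod q)ˣ) : ℝ ⧸ U Pi0 := La (((g : ZMod q).val : ℚ) / q)

theorem fib_sum {V : Type*} [AddCommMonoid V] {n m : ℕ} (hm : 0 < m) (b : ZMod m) (f : ℕ → V) :
    ∑ a ∈ (Finset.range (n * m)).filter (fun a : ℕ => (a : ZMod m) = b), f a =
      ∑ j ∈ Finset.range n, f (b.val + m * j) := by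
  have : NeZero m := ⟨hm.ne'⟩
  symm
  refine Finset.sum_nbij' (fun j => b.val + m * j) (fun a => a / m) ?_ ?_ ?_ ?_ ?_
  · intro j hj
    have hj' : j < n := Finset.mem_range.1 hj
    rw [Finset.mem_filter, Finset.mem_range]
    constructor
    · have h1 := ZMod.val_lt b
      calc b.val + m * j < m + m * j := by omega
        _ = (j + 1) * m := by ring
        _ ≤ n * m := Nat.mul_le_mul_right m hj'
    · push_cast
      simp
  · intro a ha
    rw [Finset.mem_filter, Finset.mem_range] at ha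
    rw [Finset.mem_range]
    exact Nat.div_lt_of_lt_mul (by rw [mul_comm]; exact ha.1)
  · intro j _
    have h1 := ZMod.val_lt b
    rw [Nat.add_mul_div_left _ _ hm, Nat.div_eq_of_lt h1, zero_add]
  · intro a ha
    rw [Finset.mem_filter] at ha
    have h2 : b.val = a % m := by
      rw [← ha.2, ZMod.val_natCast]
    rw [h2]
    exact Nat.mod_add_div a m
  · intro j _
    rfl

theorem fib_dvd {V : Type*} [AddCommMonoid V] {p l m : ℕ} (hp : p.Prime) (hpm : Nat.Coprime p m)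
    (b : ZMod m) (f : ℕ → V) :
    ∑ a ∈ (Finset.range (p ^ (l + 1) * m)).filter (fun a : ℕ => (a : ZMod m) = b ∧ p ∣ a), f a =
      ∑ a ∈ (Finset.range (p ^ l * m)).filter
        (fun a : ℕ => (a : ZMod m) = ((ZMod.unitOfCoprime p hpm)⁻¹ : (ZMod m)ˣ) * b), f (p * a) := by
  symm
  refine Finset.sum_nbij' (fun a => p * a) (fun a => a / p) ?_ ?_ ?_ ?_ ?_
  · intro a ha
    rw [Finset.mem_filter, Finset.mem_range] at ha
    rw [Finset.mem_filter, Finset.mem_range]
    refine ⟨?_, ?_, dvd_mul_right _ _⟩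
    · calc p * a < p * (p ^ l * m) := Nat.mul_lt_mul_of_pos_left ha.1 hp.pos
        _ = p ^ (l + 1) * m := by ring
    · rw [Nat.cast_mul, ha.2, ← ZMod.coe_unitOfCoprime p hpm, ← mul_assoc, ← Units.val_mul,
        mul_inv_cancel, Units.val_one, one_mul]
  · intro a ha
    rw [Finset.mem_filter, Finset.mem_range] at ha
    rw [Finset.mem_filter, Finset.mem_range]
    obtain ⟨h1, h2, c, rfl⟩ := ha
    rw [Nat.mul_div_cancel_left _ hp.pos]
    constructor
    · refine Nat.lt_of_mul_lt_mul_left (a := p) ?_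
      calc p * c < p ^ (l + 1) * m := h1
        _ = p * (p ^ l * m) := by ring
    · rw [← h2, Nat.cast_mul, ← ZMod.coe_unitOfCoprime p hpm, ← mul_assoc, ← Units.val_mul,
        inv_mul_cancel, Units.val_one, one_mul]
  · intro a _
    exact Nat.mul_div_cancel_left _ hp.pos
  · intro a ha
    rw [Finset.mem_filter] at ha
    exact Nat.mul_div_cancel' ha.2.2
  · intro a _
    rfl

theorem lam_sum {n m : ℕ} (hn : 0 < n) (hm : 0 < m) (b : ZMod m) :
    ∑ a ∈ (Finset.range (n * m)).filter (fun a : ℕ => (a : ZMod m) = b), La ((a : ℚ) / (n * m : ℕ)) =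
      La ((b.val : ℚ) / m) := by
  rw [fib_sum hm b (fun a => La ((a : ℚ) / (n * m : ℕ))), ← La_mult hn ((b.val : ℚ) / m)]
  refine Finset.sum_congr rfl fun j _ => ?_
  congr 1
  have h1 : (m : ℚ) ≠ 0 := by exact_mod_cast hm.ne'
  have h2 : (n : ℚ) ≠ 0 := by exact_mod_cast hn.ne'
  push_cast
  field_simp

theorem fibre_sum {p l m : ℕ} (hp : p.Prime) (hm : 0 < m) (hpm : Nat.Coprime p m)
    (hdvd : m ∣ p ^ (l + 1) * m) [NeZero (p ^ (l + 1) * m)] (c : (ZMod m)ˣ) :
    ∑ g ∈ Finset.univ.filter (fun g : (ZMod (p ^ (l + 1) * m))ˣ => ZMod.unitsMap hdvd g = c),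
      v (p ^ (l + 1) * m) g = La (((c : ZMod m).val : ℚ) / m) -
        La (((((ZMod.unitOfCoprime p hpm)⁻¹ * c : (ZMod m)ˣ) : ZMod m).val : ℚ) / m) := by
  have : NeZero m := ⟨hm.ne'⟩
  set q := p ^ (l + 1) * m with hq
  -- sum over residues
  have h1 : ∑ g ∈ Finset.univ.filter (fun g : (ZMod q)ˣ => ZMod.unitsMap hdvd g = c), v q g =
      ∑ a ∈ (Finset.range q).filter (fun a : ℕ => (a : ZMod m) = c ∧ ¬ p ∣ a), La ((a : ℚ) / q) := by
    have hcop : ∀ a : ℕ, (a : ZMod m) = c → ¬ p ∣ a → Nat.Coprime a q := by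
      intro a ha hpa
      rw [hq]
      refine Nat.Coprime.mul_right ?_ ?_
      · exact Nat.Coprime.pow_right _ ((hp.coprime_iff_not_dvd.2 hpa).symm)
      · rw [← ZMod.isUnit_iff_coprime, ha]
        exact c.isUnit
    refine Finset.sum_bij (fun g _ => (g : ZMod q).val) ?_ ?_ ?_ ?_
    · intro g hg
      rw [Finset.mem_filter] at hg
      rw [Finset.mem_filter, Finset.mem_range]
      refine ⟨ZMod.val_lt _, ?_, ?_⟩
      · rw [← hg.2, ZMod.unitsMap_val, ZMod.natCast_val]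
      · intro hdv
        have h2 := ZMod.val_coe_unit_coprime g
        have h3 : p ∣ q := by
          rw [hq, pow_succ]
          exact (dvd_mul_left p (p ^ l)).mul_right m
        exact Nat.not_coprime_of_dvd_of_dvd hp.one_lt hdv h3 h2
    · intro g _ g' _ h
      exact Units.ext (ZMod.val_injective q h)
    · intro a ha
      rw [Finset.mem_filter, Finset.mem_range] at ha
      refine ⟨ZMod.unitOfCoprime a (hcop a ha.2.1 ha.2.2), ?_, ?_⟩
      · rw [Finset.mem_filter]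
        refine ⟨Finset.mem_univ _, Units.ext ?_⟩
        rw [ZMod.unitsMap_val, ZMod.coe_unitOfCoprime, ZMod.cast_natCast hdvd]
        exact ha.2.1
      · rw [ZMod.coe_unitOfCoprime, ZMod.val_natCast, Nat.mod_eq_of_lt ha.1]
    · intro g _
      rfl
  rw [h1]
  have h2 := lam_sum (n := p ^ (l + 1)) (m := m) (pow_pos hp.pos _) hm (c : ZMod m)
  have h3 := lam_sum (n := p ^ l) (m := m) (pow_pos hp.pos _) hm
    (((ZMod.unitOfCoprime p hpm)⁻¹ * c : (ZMod m)ˣ) : ZMod m)
  have h4 := fib_dvd (l := l) hp hpm (c : ZMod m) (fun a => La ((a : ℚ) / (p ^ (l + 1) * m : ℕ)))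
  have h5 : ∑ a ∈ (Finset.range (p ^ l * m)).filter
        (fun a : ℕ => (a : ZMod m) = ((ZMod.unitOfCoprime p hpm)⁻¹ : (ZMod m)ˣ) * (c : ZMod m)),
        La (((p * a : ℕ) : ℚ) / (p ^ (l + 1) * m : ℕ)) =
      La (((((ZMod.unitOfCoprime p hpm)⁻¹ * c : (ZMod m)ˣ) : ZMod m).val : ℚ) / m) := by
    rw [← h3]
    refine Finset.sum_congr (by simp) fun a _ => ?_
    congr 1
    have h6 : (p : ℚ) ≠ 0 := by exact_mod_cast hp.pos.ne'
    have h7 : (m : ℚ) ≠ 0 := by exact_mod_cast hm.ne'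
    push_cast
    field_simp
    ring
  rw [← h2, ← h5, ← h4, eq_sub_iff_add_eq]
  have h8 := Finset.sum_filter_add_sum_filter_not
    ((Finset.range q).filter (fun a : ℕ => (a : ZMod m) = c)) (fun a => p ∣ a)
    (fun a => La ((a : ℚ) / q))
  rw [Finset.filter_filter, Finset.filter_filter] at h8
  rw [add_comm]
  exact h8

end Pool.Agent.L5helper8.LR
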