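import Mathlib
import Pool.Agent.R260.LrA

/-!
# The relations between the values of the gamma function at rational points, modulo numbers algebraic over `ℚ(π)`
-/

set_option autoImplicit false

namespace Pool.Agent.L5helper8.LR

open Real

/-- the real numbers `x` for which `exp x` is algebraic over the ring generated by `Z` -/
def U (Z : Set ℂ) : Submodule ℚ ℝ where
  carrier := {x | IsAlgebraic (Algebra.adjoin ℚ Z) ((Real.exp x : ℝ) : ℂ)}
  add_mem' := by
    intro a b ha hb
    simp only [Set.mem_ofPred_eq] at ha hb ⊢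
    rw [Real.exp_add, Complex.ofReal_mul]
    exact ha.mul hb
  zero_mem' := by
    simp only [Set.mem_ofPred_eq, Real.exp_zero, Complex.ofReal_one]
    exact isAlgebraic_one
  smul_mem' := by
    intro c x hx
    simp only [Set.mem_ofPred_eq] at hx ⊢
    have hd : 0 < c.den := c.pos
    -- integral multiples
    have hint : ∀ n : ℤ, IsAlgebraic (Algebra.adjoin ℚ Z) ((Real.exp (n * x) : ℝ) : ℂ) := by
      intro n
      obtain ⟨m, rfl | rfl⟩ := n.eq_nat_or_neg
      · have : Real.exp (((m : ℕ) : ℤ) * x) = Real.exp x ^ m := by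
          rw [← Real.exp_nat_mul]; push_cast; ring_nf
        rw [this, Complex.ofReal_pow]
        exact hx.pow m
      · have : Real.exp ((-((m : ℕ) : ℤ) : ℤ) * x) = (Real.exp x ^ m)⁻¹ := by
          rw [← Real.exp_nat_mul, ← Real.exp_neg]; push_cast; ring_nf
        rw [this, Complex.ofReal_inv, Complex.ofReal_pow]
        exact (hx.pow m).inv
    refine IsAlgebraic.of_pow hd ?_
    have h1 : ((Real.exp (c • x) : ℝ) : ℂ) ^ c.den = ((Real.exp (c.num * x) : ℝ) : ℂ) := by
      rw [← Complex.ofReal_pow, ← Real.exp_nat_mul]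
      congr 2
      rw [Rat.smul_def]
      have h2 : (c : ℝ) = (c.num : ℝ) / (c.den : ℝ) := by exact_mod_cast (Rat.num_div_den c).symm
      rw [h2]
      have h3 : (c.den : ℝ) ≠ 0 := by exact_mod_cast hd.ne'
      field_simp
    rw [h1]
    exact hint c.num

theorem mem_U {Z : Set ℂ} {x : ℝ} : x ∈ U Z ↔ IsAlgebraic (Algebra.adjoin ℚ Z) ((Real.exp x : ℝ) : ℂ) :=
  Iff.rfl

theorem log_mem_U {Z : Set ℂ} {y : ℝ} (hy : 0 < y) (h : IsAlgebraic (Algebra.adjoin ℚ Z) (y : ℂ)) :
    Real.log y ∈ U Z := by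
  rw [mem_U, Real.exp_log hy]
  exact h

theorem U_mono {Z Z' : Set ℂ} (h : Z ⊆ Z') : U Z ≤ U Z' := by
  intro x hx
  rw [mem_U] at hx ⊢
  have hle : Algebra.adjoin ℚ Z ≤ Algebra.adjoin ℚ Z' := Algebra.adjoin_mono h
  let _ : Algebra (Algebra.adjoin ℚ Z) (Algebra.adjoin ℚ Z') := (Subalgebra.inclusion hle).toAlgebra
  have _ : IsScalarTower (Algebra.adjoin ℚ Z) (Algebra.adjoin ℚ Z') ℂ := IsScalarTower.of_algebraMap_eq' rfl
  exact hx.extendScalars (Subalgebra.inclusion_injective hle)

/-- algebraic numbers are algebraic over every subring -/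
theorem alg_of_rat {Z : Set ℂ} {y : ℂ} (h : IsAlgebraic ℚ y) : IsAlgebraic (Algebra.adjoin ℚ Z) y :=
  h.extendScalars (FaithfulSMul.algebraMap_injective ℚ _)

theorem alg_of_mem {Z : Set ℂ} {y : ℂ} (h : y ∈ Z) : IsAlgebraic (Algebra.adjoin ℚ Z) y :=
  isAlgebraic_algebraMap (⟨y, Algebra.subset_adjoin h⟩ : Algebra.adjoin ℚ Z)

/-- the set consisting of `π` -/
def Pi0 : Set ℂ := {(Real.pi : ℂ)}

/-- logarithms of gamma values, modulo logarithms of numbers algebraic over `ℚ(π)` -/
noncomputable def La (x : ℚ) : ℝ ⧸ U Pi0 :=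
  (U Pi0).mkQ (Real.log (Real.Gamma ((Int.fract x : ℚ) : ℝ)))

theorem La_eq {x : ℚ} (h0 : 0 ≤ x) (h1 : x < 1) :
    La x = (U Pi0).mkQ (Real.log (Real.Gamma (x : ℝ))) := by
  unfold La
  rw [Int.fract_eq_self.2 ⟨h0, h1⟩]

theorem La_add_int (x : ℚ) (n : ℤ) : La (x + n) = La x := by
  unfold La
  rw [Int.fract_add_intCast]

theorem La_add_nat (x : ℚ) (n : ℕ) : La (x + n) = La x := by
  have := La_add_int x n
  simpa using this

theorem La_int (n : ℤ) : La n = 0 := by
  unfold La
  rw [Int.fract_intCast]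
  simp

theorem La_nat (n : ℕ) : La n = 0 := by
  have := La_int n
  simpa using this

theorem mkQ_zero_of_mem {x : ℝ} (h : x ∈ U Pi0) : (U Pi0).mkQ x = 0 := by
  rwa [Submodule.mkQ_apply, Submodule.Quotient.mk_eq_zero]

/-- the reflection formula -/
theorem La_neg (x : ℚ) : La (-x) = -La x := by
  by_cases hx : Int.fract x = 0
  · obtain ⟨n, hn⟩ : ∃ n : ℤ, x = n := ⟨⌊x⌋, by
      have := Int.floor_add_fract x
      rw [hx, add_zero] at this
      exact this.symm⟩
    rw [hn, show (-(n : ℚ)) = ((-n : ℤ) : ℚ) by push_cast; ring, La_int, La_int, neg_zero]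
  · have h1 : La (-x) = La (1 - Int.fract x) := by
      have : -x = (1 - Int.fract x) + ((-(⌊x⌋) - 1 : ℤ) : ℚ) := by
        have := Int.floor_add_fract x
        push_cast
        linarith
      rw [this, La_add_int]
    have hf0 : 0 < Int.fract x := lt_of_le_of_ne (Int.fract_nonneg x) (Ne.symm hx)
    have hf1 : Int.fract x < 1 := Int.fract_lt_one x
    rw [h1, La_eq (by linarith) (by linarith)]
    unfold La
    rw [eq_neg_iff_add_eq_zero, ← map_add]
    apply mkQ_zero_of_mem
    set f := Int.fract x with hf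
    have hfr0 : (0 : ℝ) < (f : ℝ) := by exact_mod_cast hf0
    have hfr1 : (f : ℝ) < 1 := by exact_mod_cast hf1
    have hg1 : 0 < Real.Gamma (((1 - f : ℚ)) : ℝ) := by
      apply Real.Gamma_pos_of_pos
      push_cast
      linarith
    have hg2 : 0 < Real.Gamma (f : ℝ) := Real.Gamma_pos_of_pos hfr0
    rw [← Real.log_mul hg1.ne' hg2.ne']
    have h2 : Real.Gamma (((1 - f : ℚ)) : ℝ) * Real.Gamma (f : ℝ) = Real.pi / Real.sin (Real.pi * f) := by
      rw [mul_comm, ← Real.Gamma_mul_Gamma_one_sub]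
      push_cast
      rfl
    rw [h2]
    have hs : 0 < Real.sin (Real.pi * f) := by
      apply Real.sin_pos_of_pos_of_lt_pi
      · positivity
      · nlinarith [Real.pi_pos]
    apply log_mem_U (div_pos Real.pi_pos hs)
    rw [Complex.ofReal_div, div_eq_mul_inv]
    refine (alg_of_mem (by simp [Pi0])).mul (alg_of_rat ?_).inv
    have h3 := Complex.isAlgebraic_sin_rat_mul_pi f
    have h4 : ((Real.sin (Real.pi * f) : ℝ) : ℂ) = Complex.sin ((f : ℂ) * Real.pi) := by
      rw [Complex.ofReal_sin]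
      push_cast
      ring_nf
    rw [h4]
    exact h3.extendScalars (by exact Int.cast_injective)

/-- the multiplication formula, for `0 < x < 1` -/
theorem La_mult_aux {m : ℕ} (hm : 0 < m) : ∃ c : ℝ ⧸ U Pi0, ∀ x : ℚ, 0 < x → x < 1 →
    La x = c + ∑ j ∈ Finset.range m, La ((x + j) / m) := by
  obtain ⟨C, hC, hG⟩ := Pool.Agent.R260.Lr.gauss m hm
  refine ⟨(U Pi0).mkQ (Real.log C), fun x hx0 hx1 => ?_⟩
  have hm' : (0 : ℝ) < m := by exact_mod_cast hm
  have hmq : (0 : ℚ) < m := by exact_mod_cast hm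
  have hxr : (0 : ℝ) < x := by exact_mod_cast hx0
  have hpos : ∀ j ∈ Finset.range m, Real.Gamma (((x : ℝ) + j) / m) ≠ 0 := by
    intro j _
    exact (Real.Gamma_pos_of_pos (by positivity)).ne'
  have hL : ∀ j ∈ Finset.range m, La ((x + j) / m) =
      (U Pi0).mkQ (Real.log (Real.Gamma (((x : ℝ) + j) / m))) := by
    intro j hj
    have hj' : j < m := Finset.mem_range.1 hj
    have hj'' : (j : ℚ) + 1 ≤ m := by exact_mod_cast hj'
    rw [La_eq (by positivity) (by rw [div_lt_one hmq]; linarith)]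
    push_cast
    rfl
  rw [Finset.sum_congr rfl hL, ← map_sum, ← map_add, La_eq hx0.le hx1, hG x hxr,
    Real.log_mul (by positivity) (Finset.prod_ne_zero_iff.2 hpos),
    Real.log_mul hC.ne' (by positivity), Real.log_prod hpos, ← sub_eq_zero, ← map_sub]
  apply mkQ_zero_of_mem
  have h1 : Real.log C + Real.log ((m : ℝ) ^ (x : ℝ)) +
      ∑ i ∈ Finset.range m, Real.log (Real.Gamma (((x : ℝ) + i) / m)) -
      (Real.log C + ∑ i ∈ Finset.range m, Real.log (Real.Gamma (((x : ℝ) + i) / m))) =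
      x • Real.log m := by
    rw [Real.log_rpow hm', Rat.smul_def]
    ring
  rw [h1]
  refine (U Pi0).smul_mem x (log_mem_U hm' (alg_of_rat ?_))
  have := isAlgebraic_algebraMap (R := ℚ) (A := ℂ) (m : ℚ)
  simpa using this

/-- the sum in the multiplication formula -/
noncomputable def Ta (m : ℕ) (x : ℚ) : ℝ ⧸ U Pi0 := ∑ j ∈ Finset.range m, La ((x + j) / m)

theorem Ta_add_one {m : ℕ} (hm : 0 < m) (x : ℚ) : Ta m (x + 1) = Ta m x := by
  have hmq : (m : ℚ) ≠ 0 := by exact_mod_cast hm.ne'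
  unfold Ta
  have h1 : ∑ j ∈ Finset.range m, La ((x + 1 + j) / m) =
      ∑ j ∈ Finset.range m, La ((x + ((j + 1 : ℕ) : ℚ)) / m) := by
    refine Finset.sum_congr rfl fun j _ => ?_
    congr 1
    push_cast
    ring
  rw [h1]
  have h2 := Finset.sum_range_succ' (fun j : ℕ => La ((x + (j : ℚ)) / m)) m
  have h3 := Finset.sum_range_succ (fun j : ℕ => La ((x + (j : ℚ)) / m)) m
  rw [h2] at h3
  have h4 : La ((x + ((0 : ℕ) : ℚ)) / m) = La ((x + (m : ℚ)) / m) := by
    have : (x + (m : ℚ)) / m = (x + ((0 : ℕ) : ℚ)) / m + (1 : ℕ) := by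
      push_cast
      field_simp
      ring
    rw [this, La_add_nat]
  rw [h4] at h3
  exact add_right_cancel h3

theorem Ta_neg {m : ℕ} (hm : 0 < m) (x : ℚ) : Ta m (-x) = -Ta m x := by
  have hmq : (m : ℚ) ≠ 0 := by exact_mod_cast hm.ne'
  rw [← Ta_add_one hm x]
  unfold Ta
  rw [← Finset.sum_range_reflect, ← Finset.sum_neg_distrib]
  refine Finset.sum_congr rfl fun j hj => ?_
  have hj' : j < m := Finset.mem_range.1 hj
  rw [← La_neg]
  have h1 : ((m - 1 - j : ℕ) : ℚ) = (m : ℚ) - 1 - j := by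
    rw [Nat.cast_sub (by omega), Nat.cast_sub (by omega)]
    push_cast
    ring
  have : (-x + ((m - 1 - j : ℕ) : ℚ)) / m = -((x + 1 + j) / m) + (1 : ℕ) := by
    rw [h1]
    push_cast
    field_simp
    ring
  rw [this, La_add_nat]

theorem zero_of_eq_neg {c : ℝ ⧸ U Pi0} (h : c = -c) : c = 0 := by
  have h2 : (2 : ℚ) • c = 0 := by
    rw [two_smul]
    nth_rewrite 1 [h]
    exact neg_add_cancel c
  rcases smul_eq_zero.1 h2 with h3 | h3
  · norm_num at h3
  · exact h3

/-- the multiplication formula -/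
theorem La_mult {m : ℕ} (hm : 0 < m) (x : ℚ) : ∑ j ∈ Finset.range m, La ((x + j) / m) = La x := by
  obtain ⟨c, hc⟩ := La_mult_aux hm
  have hc0 : c = 0 := by
    apply zero_of_eq_neg
    have h1 := hc (1 / 2) (by norm_num) (by norm_num)
    have h2 : La (1 / 2 : ℚ) = 0 := by
      apply zero_of_eq_neg
      rw [← La_neg]
      have : (1 / 2 : ℚ) = -(1 / 2) + (1 : ℕ) := by norm_num
      conv_lhs => rw [this]
      rw [La_add_nat]
    have h3 : Ta m (1 / 2 : ℚ) = 0 := by
      apply zero_of_eq_neg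
      rw [← Ta_neg hm, ← Ta_add_one hm (-(1 / 2))]
      norm_num
    unfold Ta at h3
    rw [h2, h3, add_zero] at h1
    rw [← h1, neg_zero]
  have hper : ∀ (y : ℚ) (n : ℕ), Ta m (y + n) = Ta m y := by
    intro y n
    induction n with
    | zero => simp
    | succ k ih =>
      have : y + ((k + 1 : ℕ) : ℚ) = (y + k) + 1 := by push_cast; ring
      rw [this, Ta_add_one hm, ih]
  have hperz : ∀ (y : ℚ) (n : ℤ), Ta m (y + n) = Ta m y := by
    intro y n
    obtain ⟨k, rfl | rfl⟩ := n.eq_nat_or_neg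
    · have := hper y k
      simpa using this
    · have := hper (y + ((-(k : ℤ) : ℤ) : ℚ)) k
      rw [← this]
      congr 1
      push_cast
      ring
  change Ta m x = La x
  have hx : x = Int.fract x + (⌊x⌋ : ℚ) := by
    have := Int.floor_add_fract x
    linarith
  by_cases hf : Int.fract x = 0
  · rw [hf, zero_add] at hx
    have h1 : La x = 0 := by rw [hx]; exact La_int _
    have h2 : Ta m x = Ta m 0 := by
      rw [hx]
      have := hperz 0 ⌊x⌋
      rw [zero_add] at this
      exact this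
    rw [h1, h2]
    apply zero_of_eq_neg
    rw [← Ta_neg hm, neg_zero]
  · have hf0 : 0 < Int.fract x := lt_of_le_of_ne (Int.fract_nonneg x) (Ne.symm hf)
    have h1 := hc (Int.fract x) hf0 (Int.fract_lt_one x)
    rw [hc0, zero_add] at h1
    have h2 : Ta m x = Ta m (Int.fract x) := by
      conv_lhs => rw [hx]
      exact hperz _ _
    have h3 : La x = La (Int.fract x) := by
      conv_lhs => rw [hx]
      exact La_add_int _ _
    rw [h2, h3, h1]
    rfl

end Pool.Agent.L5helper8.LR
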