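import Pool.Agent.L5helper8.LR.Chars
import Pool.Agent.Y916.Af.Trd

/-!
# The transcendence degree of the field generated by `π` and the `Γ(a / q)`, `gcd (a, q) = 1`
-/

set_option autoImplicit false

namespace Pool.Agent.L5helper8.LR

/-- the generators of the field -/
def gens (q : ℕ) : Set ℂ :=
  {(Real.pi : ℂ)} ∪ {z : ℂ | ∃ a : ℕ, 1 ≤ a ∧ a ≤ q - 1 ∧ Nat.gcd a q = 1 ∧
    z = Complex.Gamma ((a : ℂ) / (q : ℂ))}

theorem trdeg_le (q : ℕ) (hq : 2 < q) :
    Algebra.trdeg ℚ (IntermediateField.adjoin ℚ (gens q)) ≤ ((1 + rk q : ℕ) : Cardinal) := by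
  classical
  have : NeZero q := ⟨by omega⟩
  obtain ⟨B, hB, hspan⟩ := exists_gens q
  have hqr : (0 : ℝ) < q := by exact_mod_cast (by omega : 0 < q)
  have hqq : (0 : ℚ) < q := by exact_mod_cast (by omega : 0 < q)
  -- the real gamma values
  let G : (ZMod q)ˣ → ℝ := fun g => Real.Gamma (((g : ZMod q).val : ℝ) / q)
  have hval : ∀ g : (ZMod q)ˣ, 0 < (g : ZMod q).val := by
    intro g
    rw [Nat.pos_iff_ne_zero]
    intro h0
    have h1 := ZMod.val_coe_unit_coprime g
    rw [h0, Nat.coprime_zero_left] at h1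
    omega
  have hGpos : ∀ g, 0 < G g := by
    intro g
    apply Real.Gamma_pos_of_pos
    have : (0 : ℝ) < ((g : ZMod q).val : ℝ) := by exact_mod_cast hval g
    positivity
  have hv : ∀ g : (ZMod q)ˣ, v q g = (U Pi0).mkQ (Real.log (G g)) := by
    intro g
    unfold v
    rw [La_eq (by positivity)]
    · simp only [G]
      push_cast
      rfl
    · rw [div_lt_one hqq]
      exact_mod_cast ZMod.val_lt (g : ZMod q)
  set Z : Finset ℂ := insert (Real.pi : ℂ) (B.image (fun g => ((G g : ℝ) : ℂ))) with hZ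
  have hcard : Z.card ≤ 1 + rk q := by
    refine (Finset.card_insert_le _ _).trans ?_
    have := (Finset.card_image_le (s := B) (f := fun g => ((G g : ℝ) : ℂ))).trans hB
    omega
  have hPi : Pi0 ⊆ (Z : Set ℂ) := by
    intro z hz
    simp only [Pi0, Set.mem_singleton_iff] at hz
    rw [hz, hZ]
    simp
  have key : ∀ g : (ZMod q)ˣ, Real.log (G g) ∈ U (Z : Set ℂ) := by
    intro g
    have h1 := hspan g
    rw [hv g] at h1
    have h2 : v q '' (B : Set (ZMod q)ˣ) = (U Pi0).mkQ '' ((fun b => Real.log (G b)) '' (B : Set (ZMod q)ˣ)) := by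
      rw [Set.image_image]
      exact Set.image_congr fun b _ => hv b
    rw [h2, ← Submodule.map_span] at h1
    have h3 : Real.log (G g) ∈ Submodule.comap (U Pi0).mkQ (Submodule.map (U Pi0).mkQ
        (Submodule.span ℚ ((fun b => Real.log (G b)) '' (B : Set (ZMod q)ˣ)))) := h1
    rw [Submodule.comap_map_mkQ] at h3
    refine (sup_le (U_mono hPi) (Submodule.span_le.2 ?_)) h3
    rintro _ ⟨b, hb, rfl⟩
    refine log_mem_U (hGpos b) (alg_of_mem ?_)
    rw [hZ]
    simp only [Finset.coe_insert, Finset.coe_image, Set.mem_insert_iff, Set.mem_image]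
    exact Or.inr ⟨b, hb, rfl⟩
  have hcast : ((Z.card : ℕ) : Cardinal) ≤ ((1 + rk q : ℕ) : Cardinal) := by exact_mod_cast hcard
  refine le_trans (Pool.Agent.Y916.Af.trdeg_le_of_closure Z ?_) hcast
  rintro z (hz | ⟨a, ha1, ha2, ha3, rfl⟩)
  · rw [Set.mem_singleton_iff] at hz
    subst hz
    exact Pool.Agent.Y916.Af.mem_cl_of_alg (alg_of_mem (hPi rfl))
  · apply Pool.Agent.Y916.Af.mem_cl_of_alg
    have h1 := key (ZMod.unitOfCoprime a ha3)
    rw [mem_U, Real.exp_log (hGpos _)] at h1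
    have h2 : ((G (ZMod.unitOfCoprime a ha3) : ℝ) : ℂ) = Complex.Gamma ((a : ℂ) / (q : ℂ)) := by
      simp only [G]
      rw [ZMod.coe_unitOfCoprime, ZMod.val_natCast, Nat.mod_eq_of_lt (by omega),
        ← Complex.Gamma_ofReal]
      push_cast
      rfl
    rw [h2] at h1
    exact h1

end Pool.Agent.L5helper8.LR
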